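import Mathlib

/-!
Sets in general position in the cube `{1,2,3}^d` that are invariant under `m` pairwise disjoint
coordinate transpositions have at most `sqrt (9 / (2 (m+1))) * 3 ^ d` elements.
-/

set_option autoImplicit false

namespace Pool.Agent.Results.MP_20facf_co.SymmetricUpper

open Finset

lemma central_bound (k : ℕ) : (Nat.centralBinom k)^2 * (2*k+1) ≤ 16^k := by
  induction k with
  | zero => simp
  | succ k ih =>
    have h := Nat.succ_mul_centralBinom_succ k
    have h2 : (k+1)^2 * ((Nat.centralBinom (k+1))^2 * (2*(k+1)+1)) ≤ (k+1)^2 * 16^(k+1) := by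
      calc (k+1)^2 * ((Nat.centralBinom (k+1))^2 * (2*(k+1)+1))
          = ((k+1) * Nat.centralBinom (k+1))^2 * (2*k+3) := by ring
        _ = (2 * (2*k+1) * Nat.centralBinom k)^2 * (2*k+3) := by rw [h]
        _ = 4 * (2*k+1) * (2*k+3) * ((Nat.centralBinom k)^2 * (2*k+1)) := by ring
        _ ≤ 4 * (2*k+1) * (2*k+3) * 16^k := Nat.mul_le_mul_left _ ih
        _ ≤ (k+1)^2 * 16^(k+1) := by
            have : 4 * (2*k+1) * (2*k+3) ≤ 16 * (k+1)^2 := by nlinarith
            calc 4 * (2*k+1) * (2*k+3) * 16^k ≤ 16 * (k+1)^2 * 16^k :=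
                  Nat.mul_le_mul_right _ this
              _ = (k+1)^2 * 16^(k+1) := by ring
    exact Nat.le_of_mul_le_mul_left h2 (by positivity)

lemma choose_half_bound (f : ℕ) : (f.choose (f/2))^2 * (f+1) ≤ 4^f := by
  rcases Nat.even_or_odd' f with ⟨k, rfl | rfl⟩
  · have := central_bound k
    rw [Nat.centralBinom] at this
    have h : 2*k/2 = k := by omega
    rw [h]
    calc (Nat.choose (2*k) k)^2 * (2*k+1) ≤ 16^k := this
      _ = 4^(2*k) := by rw [pow_mul]; norm_num
  · have := central_bound (k+1)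
    have h : (2*k+1)/2 = k := by omega
    rw [h]
    have e : Nat.centralBinom (k+1) = 2 * Nat.choose (2*k+1) k := by
      rw [Nat.centralBinom, show 2*(k+1) = (2*k+1)+1 by ring, Nat.choose_succ_succ,
        ← Nat.choose_symm_half k]
      ring
    rw [e] at this
    have h3 : 4 * ((Nat.choose (2*k+1) k)^2 * (2*k+1+1)) ≤ 4 * 4^(2*k+1) := by
      calc 4 * ((Nat.choose (2*k+1) k)^2 * (2*k+1+1))
            ≤ (2 * Nat.choose (2*k+1) k)^2 * (2*(k+1)+1) := by
              nlinarith [sq_nonneg (Nat.choose (2*k+1) k)]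
        _ ≤ 16^(k+1) := this
        _ = 4 * 4^(2*k+1) := by
              rw [show (16:ℕ) = 4^2 by norm_num, ← pow_mul]; ring
    omega

lemma fiber_bound {m : ℕ} {κ : Type*} [Fintype κ] [DecidableEq κ] (a b : κ)
    (T : Finset (Fin m → κ))
    (hT : ∀ y ∈ T, ∀ y' ∈ T, (∀ k, y k = y' k ∨ (y k = a ∧ y' k = b)) → y = y')
    (F : Finset (Fin m)) (r : Fin m → κ) :
    (T.filter (fun y => (∀ k ∈ F, y k = a ∨ y k = b) ∧ ∀ k, k ∉ F → y k = r k)).card
      ≤ (F.card).choose (F.card / 2) := by
  classical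
  set T' := T.filter (fun y => (∀ k ∈ F, y k = a ∨ y k = b) ∧ ∀ k, k ∉ F → y k = r k) with hT'
  let A : (Fin m → κ) → Finset F := fun y => Finset.univ.filter (fun k : F => y k = b)
  have key : ∀ y ∈ T', ∀ y' ∈ T', A y ⊆ A y' → y = y' := by
    intro y hy y' hy' hsub
    rw [hT', Finset.mem_filter] at hy hy'
    apply hT y hy.1 y' hy'.1
    intro k
    by_cases hk : k ∈ F
    · rcases hy.2.1 k hk with h1 | h1
      · rcases hy'.2.1 k hk with h2 | h2
        · left; rw [h1, h2]
        · right; exact ⟨h1, h2⟩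
      · have : (⟨k, hk⟩ : F) ∈ A y := by simp [A, h1]
        have := hsub this
        simp only [A, Finset.mem_filter, Finset.mem_univ, true_and] at this
        left; rw [h1, this]
    · left; rw [hy.2.2 k hk, hy'.2.2 k hk]
  have hinj : Set.InjOn A (T' : Set (Fin m → κ)) := by
    intro y hy y' hy' h
    exact key y hy y' hy' h.subset
  have hanti : IsAntichain (· ⊆ ·) ((T'.image A : Finset (Finset F)) : Set (Finset F)) := by
    intro s hs t ht hne hst
    simp only [Finset.coe_image, Set.mem_image, Finset.mem_coe] at hs ht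
    obtain ⟨y, hy, rfl⟩ := hs
    obtain ⟨y', hy', rfl⟩ := ht
    exact hne (by rw [key y hy y' hy' hst])
  have := hanti.sperner
  rw [Finset.card_image_of_injOn hinj] at this
  simpa using this

lemma card_le_sum {m : ℕ} {κ : Type*} [Fintype κ] [DecidableEq κ] (a b : κ) (hab : a ≠ b)
    (T : Finset (Fin m → κ))
    (hT : ∀ y ∈ T, ∀ y' ∈ T, (∀ k, y k = y' k ∨ (y k = a ∧ y' k = b)) → y = y') :
    T.card ≤ ∑ F : Finset (Fin m),
      (Fintype.card κ - 2)^(m - F.card) * (F.card).choose (F.card/2) := by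
  classical
  let fr : (Fin m → κ) → Finset (Fin m) :=
    fun y => Finset.univ.filter (fun k => y k = a ∨ y k = b)
  let R : Finset (Fin m) → Finset (Fin m → κ) := fun F =>
    Fintype.piFinset (fun k => if k ∈ F then {a} else (Finset.univ \ {a, b}))
  have hRcard : ∀ F, (R F).card = (Fintype.card κ - 2)^(m - F.card) := by
    intro F
    simp only [R, Fintype.card_piFinset]
    rw [← Finset.prod_mul_prod_compl F]
    have h1 : ∏ i ∈ F, (if i ∈ F then ({a} : Finset κ) else Finset.univ \ {a, b}).card = 1 := by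
      apply Finset.prod_eq_one
      intro i hi
      simp [hi]
    have h2 : ∏ i ∈ Fᶜ, (if i ∈ F then ({a} : Finset κ) else Finset.univ \ {a, b}).card
        = (Fintype.card κ - 2)^(m - F.card) := by
      rw [Finset.prod_congr rfl (g := fun _ => (Fintype.card κ - 2))]
      · rw [Finset.prod_const, Finset.card_compl, Fintype.card_fin]
      · intro i hi
        rw [Finset.mem_compl] at hi
        rw [if_neg hi, Finset.card_sdiff_of_subset (Finset.subset_univ _),
          Finset.card_pair hab, Finset.card_univ]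
    rw [h1, h2, one_mul]
  calc T.card ≤ (Finset.univ.sigma R |>.biUnion (fun p => T.filter
          (fun y => (∀ k ∈ p.1, y k = a ∨ y k = b) ∧ ∀ k, k ∉ p.1 → y k = p.2 k))).card := by
        apply Finset.card_le_card
        intro y hy
        rw [Finset.mem_biUnion]
        refine ⟨⟨fr y, fun k => if k ∈ fr y then a else y k⟩, ?_, ?_⟩
        · rw [Finset.mem_sigma]
          refine ⟨Finset.mem_univ _, ?_⟩
          simp only [R, Fintype.mem_piFinset]
          intro k
          by_cases hk : k ∈ fr y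
          · simp [hk]
          · simp only [hk, if_false]
            simp only [fr, Finset.mem_filter, Finset.mem_univ, true_and] at hk
            simp only [Finset.mem_sdiff, Finset.mem_univ, true_and, Finset.mem_insert,
              Finset.mem_singleton]
            exact hk
        · rw [Finset.mem_filter]
          refine ⟨hy, ?_, ?_⟩
          · intro k hk
            simpa [fr] using hk
          · intro k hk
            simp only [hk, if_false]
    _ ≤ ∑ p ∈ Finset.univ.sigma R, (T.filter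
          (fun y => (∀ k ∈ p.1, y k = a ∨ y k = b) ∧ ∀ k, k ∉ p.1 → y k = p.2 k)).card :=
        Finset.card_biUnion_le
    _ ≤ ∑ p ∈ Finset.univ.sigma R, (p.1.card).choose (p.1.card/2) := by
        apply Finset.sum_le_sum
        intro p _
        exact fiber_bound a b T hT p.1 p.2
    _ = ∑ F : Finset (Fin m),
          (Fintype.card κ - 2)^(m - F.card) * (F.card).choose (F.card/2) := by
        rw [Finset.sum_sigma]
        apply Finset.sum_congr rfl
        intro F _
        simp only [Finset.sum_const, hRcard, smul_eq_mul]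

lemma sum_bound (m : ℕ) (p : ℝ) (hp : 0 ≤ p) :
    (∑ F : Finset (Fin m), p^(m - F.card) * ((F.card).choose (F.card/2) : ℝ))^2 * (2 * (m+1))
      ≤ (2+p)^(2*m+1) := by
  have h1 : ∑ F : Finset (Fin m), (2:ℝ)^F.card * p^(m - F.card) = (2+p)^m := by
    have := Fintype.sum_pow_mul_eq_add_pow (Fin m) (2:ℝ) p
    simpa using this
  have h2 : (∑ F : Finset (Fin m), (2:ℝ)^F.card * p^(m - F.card) * (1/((F.card:ℝ)+1)))
      * (2*(m+1)) ≤ (2+p)^(m+1) := by
    have e1 : ∑ F : Finset (Fin m), (2:ℝ)^F.card * p^(m - F.card) * (1/((F.card:ℝ)+1))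
        = ∑ f ∈ Finset.range (m+1),
          (m.choose f : ℝ) * ((2:ℝ)^f * p^(m-f) * (1/((f:ℝ)+1))) := by
      have := Finset.sum_powerset_apply_card
        (fun f => (2:ℝ)^f * p^(m-f) * (1/((f:ℝ)+1))) (x := (Finset.univ : Finset (Fin m)))
      simp only [Finset.powerset_univ, Finset.card_univ, Fintype.card_fin, nsmul_eq_mul] at this
      exact this
    rw [e1, Finset.sum_mul]
    have e2 : ∀ f ∈ Finset.range (m+1),
        (m.choose f : ℝ) * ((2:ℝ)^f * p^(m-f) * (1/((f:ℝ)+1))) * (2*(m+1))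
        = (2:ℝ)^(f+1) * p^(m+1-(f+1)) * ((m+1).choose (f+1) : ℝ) := by
      intro f hf
      have hc : ((m+1).choose (f+1) : ℝ) * ((f:ℝ)+1) = ((m:ℝ)+1) * (m.choose f : ℝ) := by
        have := Nat.add_one_mul_choose_eq m f
        exact_mod_cast this.symm
      have hf0 : ((f:ℝ)+1) ≠ 0 := by positivity
      rw [Nat.add_sub_add_right]
      field_simp
      rw [pow_succ]
      linear_combination (-(2:ℝ)^f * 2 * p^(m-f)) * hc
    rw [Finset.sum_congr rfl e2]
    have e3 := add_pow (2:ℝ) p (m+1)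
    rw [Finset.sum_range_succ'] at e3
    rw [e3]
    have : 0 ≤ (2:ℝ)^0 * p^(m+1-0) * ((m+1).choose 0 : ℝ) := by positivity
    linarith
  have h3 : ∑ F : Finset (Fin m), p^(m - F.card) * ((F.card).choose (F.card/2) : ℝ) ≤
      ∑ F : Finset (Fin m), Real.sqrt ((2:ℝ)^F.card * p^(m - F.card)) *
        Real.sqrt ((2:ℝ)^F.card * p^(m - F.card) * (1/((F.card:ℝ)+1))) := by
    apply Finset.sum_le_sum
    intro F _
    set f := F.card
    have hb : ((f.choose (f/2) : ℕ) : ℝ)^2 * ((f:ℝ)+1) ≤ 4^f := by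
      exact_mod_cast choose_half_bound f
    have hb' : ((f.choose (f/2) : ℕ) : ℝ)^2 ≤ 4^f / ((f:ℝ)+1) := by
      rw [le_div_iff₀ (by positivity)]; exact hb
    rw [← Real.sqrt_mul (by positivity)]
    apply Real.le_sqrt_of_sq_le
    have : (p^(m - f) * ((f.choose (f/2) : ℕ) : ℝ))^2
        = (p^(m-f))^2 * ((f.choose (f/2) : ℕ) : ℝ)^2 := by ring
    rw [this]
    calc (p^(m-f))^2 * ((f.choose (f/2) : ℕ) : ℝ)^2 ≤ (p^(m-f))^2 * (4^f / ((f:ℝ)+1)) :=
          mul_le_mul_of_nonneg_left hb' (by positivity)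
      _ = 2 ^ f * p ^ (m - f) * (2 ^ f * p ^ (m - f) * (1 / ((f:ℝ) + 1))) := by
          have : (4:ℝ)^f = 2^f * 2^f := by rw [← mul_pow]; norm_num
          rw [this]; ring
  have h4 := Real.sum_sqrt_mul_sqrt_le (Finset.univ : Finset (Finset (Fin m)))
    (f := fun F => (2:ℝ)^F.card * p^(m - F.card))
    (g := fun F => (2:ℝ)^F.card * p^(m - F.card) * (1/((F.card:ℝ)+1)))
    (fun F => by positivity) (fun F => by positivity)
  have h5 : (∑ F : Finset (Fin m), p^(m - F.card) * ((F.card).choose (F.card/2) : ℝ))^2 ≤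
     (∑ F : Finset (Fin m), (2:ℝ)^F.card * p^(m - F.card)) *
     (∑ F : Finset (Fin m), (2:ℝ)^F.card * p^(m - F.card) * (1/((F.card:ℝ)+1))) := by
    have h6 := h3.trans h4
    have hn : 0 ≤ ∑ F : Finset (Fin m), p^(m - F.card) * ((F.card).choose (F.card/2) : ℝ) :=
      Finset.sum_nonneg (fun F _ => by positivity)
    calc _ ≤ (Real.sqrt (∑ F : Finset (Fin m), (2:ℝ)^F.card * p^(m - F.card)) *
          Real.sqrt (∑ F : Finset (Fin m),
            (2:ℝ)^F.card * p^(m - F.card) * (1/((F.card:ℝ)+1))))^2 :=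
          pow_le_pow_left₀ hn h6 2
      _ = _ := by
          rw [mul_pow, Real.sq_sqrt (Finset.sum_nonneg (fun F _ => by positivity)),
            Real.sq_sqrt (Finset.sum_nonneg (fun F _ => by positivity))]
  rw [h1] at h5
  calc _ ≤ ((2+p)^m * (∑ F : Finset (Fin m),
            (2:ℝ)^F.card * p^(m - F.card) * (1/((F.card:ℝ)+1)))) * (2 * (m+1)) :=
        mul_le_mul_of_nonneg_right h5 (by positivity)
    _ = (2+p)^m * ((∑ F : Finset (Fin m),
            (2:ℝ)^F.card * p^(m - F.card) * (1/((F.card:ℝ)+1))) * (2 * (m+1))) := by ring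
    _ ≤ (2+p)^m * (2+p)^(m+1) := mul_le_mul_of_nonneg_left h2 (by positivity)
    _ = (2+p)^(2*m+1) := by ring

/-- Composition of the chosen disjoint transpositions over a set `A` of indices. -/
lemma exists_perm {d m : ℕ} (e : Fin m ⊕ Fin m ↪ Fin d) (S : Finset (Fin d → ℝ))
    (hsym : ∀ k : Fin m, ∀ x ∈ S, x ∘ (Equiv.swap (e (Sum.inl k)) (e (Sum.inr k))) ∈ S)
    (A : Finset (Fin m)) :
    ∃ σ : Equiv.Perm (Fin d), (∀ x ∈ S, x ∘ σ ∈ S) ∧
      (∀ k ∈ A, σ (e (Sum.inl k)) = e (Sum.inr k) ∧ σ (e (Sum.inr k)) = e (Sum.inl k)) ∧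
      (∀ c, (∀ k ∈ A, c ≠ e (Sum.inl k) ∧ c ≠ e (Sum.inr k)) → σ c = c) := by
  classical
  induction A using Finset.induction_on with
  | empty => exact ⟨1, fun x hx => by simpa using hx, by simp, by simp⟩
  | insert k A hk ih =>
    obtain ⟨σ, h1, h2, h3⟩ := ih
    have hlr : e (Sum.inl k) ≠ e (Sum.inr k) := by
      intro h; exact absurd (e.injective h) (by simp)
    have hσl : σ (e (Sum.inl k)) = e (Sum.inl k) := by
      apply h3
      intro k' hk'
      have hne : k ≠ k' := by rintro rfl; exact hk hk'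
      refine ⟨?_, ?_⟩
      · intro h; exact hne (Sum.inl.inj (e.injective h))
      · intro h; exact absurd (e.injective h) (by simp)
    have hσr : σ (e (Sum.inr k)) = e (Sum.inr k) := by
      apply h3
      intro k' hk'
      have hne : k ≠ k' := by rintro rfl; exact hk hk'
      refine ⟨?_, ?_⟩
      · intro h; exact absurd (e.injective h) (by simp)
      · intro h; exact hne (Sum.inr.inj (e.injective h))
    refine ⟨(Equiv.swap (e (Sum.inl k)) (e (Sum.inr k))) * σ, ?_, ?_, ?_⟩
    · intro x hx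
      have := h1 _ (hsym k x hx)
      simpa [Function.comp_assoc, Equiv.Perm.coe_mul] using this
    · intro k' hk'
      rw [Finset.mem_insert] at hk'
      rcases hk' with rfl | hk'
      · simp [hσl, hσr]
      · have hne : k' ≠ k := by rintro rfl; exact hk hk'
        obtain ⟨ha, hb⟩ := h2 k' hk'
        refine ⟨?_, ?_⟩
        · rw [Equiv.Perm.mul_apply, ha, Equiv.swap_apply_of_ne_of_ne]
          · intro h; exact absurd (e.injective h) (by simp)
          · intro h; exact hne (Sum.inr.inj (e.injective h))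
        · rw [Equiv.Perm.mul_apply, hb, Equiv.swap_apply_of_ne_of_ne]
          · intro h; exact hne (Sum.inl.inj (e.injective h))
          · intro h; exact absurd (e.injective h) (by simp)
    · intro c hc
      have hc1 := hc k (Finset.mem_insert_self _ _)
      rw [Equiv.Perm.mul_apply, h3 c (fun k' hk' => hc k' (Finset.mem_insert_of_mem hk')),
        Equiv.swap_apply_of_ne_of_ne hc1.1 hc1.2]

/-- Code of a coordinate value `1, 2, 3` as an element of `Fin 3`. -/
noncomputable def cd (v : ℝ) : Fin 3 := if v = 1 then 0 else if v = 2 then 1 else 2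

lemma cd_inj {v w : ℝ} (hv : v = 1 ∨ v = 2 ∨ v = 3) (hw : w = 1 ∨ w = 2 ∨ w = 3)
    (h : cd v = cd w) : v = w := by
  rcases hv with rfl | rfl | rfl <;> rcases hw with rfl | rfl | rfl <;>
    first
      | rfl
      | (exfalso; revert h; norm_num [cd] <;> decide)

lemma cd_zero {v : ℝ} (hv : v = 1 ∨ v = 2 ∨ v = 3) (h : cd v = 0) : v = 1 := by
  rcases hv with rfl | rfl | rfl
  · rfl
  · exfalso; revert h; norm_num [cd]
  · exfalso; revert h; norm_num [cd] <;> decide

lemma cd_one {v : ℝ} (hv : v = 1 ∨ v = 2 ∨ v = 3) (h : cd v = 1) : v = 2 := by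
  rcases hv with rfl | rfl | rfl
  · exfalso; revert h; norm_num [cd]
  · rfl
  · exfalso; revert h; norm_num [cd] <;> decide

lemma cd_two {v : ℝ} (hv : v = 1 ∨ v = 2 ∨ v = 3) (h : cd v = 2) : v = 3 := by
  rcases hv with rfl | rfl | rfl
  · exfalso; revert h; norm_num [cd] <;> decide
  · exfalso; revert h; norm_num [cd] <;> decide
  · rfl

/-- **Main result.**  Let `S` be a subset of `{1,2,3}^d` without three distinct collinear points,
and suppose that `S` is invariant under `m` coordinate transpositions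
`(e (inl k)  e (inr k))`, `k < m`, with pairwise disjoint supports (`e` is an injection of
`Fin m ⊕ Fin m` into the coordinates).  Then `|S| ≤ sqrt (9 / (2 (m + 1))) * 3 ^ d`. -/
theorem result (d m : ℕ) (e : Fin m ⊕ Fin m ↪ Fin d) (S : Finset (Fin d → ℝ))
    (hS : ∀ x ∈ S, ∀ i, x i = 1 ∨ x i = 2 ∨ x i = 3)
    (hgp : ∀ p ∈ S, ∀ q ∈ S, ∀ r ∈ S, p ≠ q → p ≠ r → q ≠ r →
      ¬ Collinear ℝ ({p, q, r} : Set (Fin d → ℝ)))
    (hsym : ∀ k : Fin m, ∀ x ∈ S, x ∘ (Equiv.swap (e (Sum.inl k)) (e (Sum.inr k))) ∈ S) :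
    (S.card : ℝ) ≤ Real.sqrt (9 / (2 * ((m : ℝ) + 1))) * 3 ^ d := by
  classical
  -- no line through a symmetric pair
  have hline : ∀ x ∈ S, ∀ x' ∈ S,
      (∀ k, (x (e (Sum.inl k)) = x' (e (Sum.inl k)) ∧ x (e (Sum.inr k)) = x' (e (Sum.inr k))) ∨
        (x (e (Sum.inl k)) = 2 ∧ x (e (Sum.inr k)) = 2 ∧
          x' (e (Sum.inl k)) = 1 ∧ x' (e (Sum.inr k)) = 3)) →
      (∀ c, c ∉ Finset.univ.map e → x c = x' c) → x = x' := by
    intro x hx x' hx' hk hc
    by_contra hne
    set A : Finset (Fin m) := Finset.univ.filter (fun k => x (e (Sum.inl k)) ≠ x' (e (Sum.inl k)))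
      with hA
    obtain ⟨σ, h1, h2, h3⟩ := exists_perm e S hsym A
    have hAk : ∀ k ∈ A, x (e (Sum.inl k)) = 2 ∧ x (e (Sum.inr k)) = 2 ∧
          x' (e (Sum.inl k)) = 1 ∧ x' (e (Sum.inr k)) = 3 := by
      intro k hkA
      rw [hA, Finset.mem_filter] at hkA
      rcases hk k with h | h
      · exact absurd h.1 hkA.2
      · exact h
    have hAk' : ∀ k, k ∉ A → x (e (Sum.inl k)) = x' (e (Sum.inl k)) ∧
        x (e (Sum.inr k)) = x' (e (Sum.inr k)) := by
      intro k hkA
      rw [hA, Finset.mem_filter] at hkA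
      rcases hk k with h | h
      · exact h
      · exfalso; apply hkA; refine ⟨Finset.mem_univ _, ?_⟩
        rw [h.1, h.2.2.1]; norm_num
    have hmid : ∀ c, x' c + (x' ∘ σ) c = 2 * x c := by
      intro c
      by_cases hcA : ∃ k ∈ A, c = e (Sum.inl k) ∨ c = e (Sum.inr k)
      · obtain ⟨k, hkA, rfl | rfl⟩ := hcA
        · rw [Function.comp_apply, (h2 k hkA).1]
          obtain ⟨a1, a2, a3, a4⟩ := hAk k hkA
          rw [a1, a3, a4]; norm_num
        · rw [Function.comp_apply, (h2 k hkA).2]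
          obtain ⟨a1, a2, a3, a4⟩ := hAk k hkA
          rw [a2, a3, a4]; norm_num
      · push Not at hcA
        have hσc : σ c = c := h3 c (fun k hkA => hcA k hkA)
        have hxc : x c = x' c := by
          by_cases hcr : c ∈ Finset.univ.map e
          · rw [Finset.mem_map] at hcr
            obtain ⟨s, _, rfl⟩ := hcr
            rcases s with k | k
            · by_cases hkA : k ∈ A
              · exact absurd rfl (hcA k hkA).1
              · exact (hAk' k hkA).1
            · by_cases hkA : k ∈ A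
              · exact absurd rfl (hcA k hkA).2
              · exact (hAk' k hkA).2
          · exact hc c hcr
        rw [Function.comp_apply, hσc, hxc]; ring
    have hx'' : x' ∘ σ ∈ S := h1 x' hx'
    have hne1 : x' ≠ x' ∘ σ := by
      intro h
      apply hne
      funext c
      have := hmid c
      rw [← h] at this
      linarith
    have hne2 : x ≠ x' ∘ σ := by
      intro h
      apply hne
      funext c
      have := hmid c
      rw [← h] at this
      linarith
    refine hgp x' hx' x hx (x' ∘ σ) hx'' (Ne.symm hne) hne1 hne2 ?_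
    have hxm : x = midpoint ℝ x' (x' ∘ σ) := by
      funext c
      rw [midpoint_eq_smul_add]
      simp only [Pi.smul_apply, Pi.add_apply, smul_eq_mul]
      have := hmid c
      simp only [invOf_eq_inv]
      linarith
    have hw : Wbtw ℝ x' x (x' ∘ σ) := by
      rw [hxm]; exact wbtw_midpoint ℝ x' (x' ∘ σ)
    exact hw.collinear
  -- split off the coordinates that are not moved
  set Rc : Finset (Fin d) := (Finset.univ.map e)ᶜ with hRc
  have hRcard : Rc.card = d - 2 * m := by
    rw [hRc, Finset.card_compl, Finset.card_map, Finset.card_univ, Fintype.card_fin,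
      Fintype.card_sum, Fintype.card_fin]
    omega
  have h2md : 2 * m ≤ d := by
    have := Fintype.card_le_of_embedding e
    simp only [Fintype.card_sum, Fintype.card_fin] at this
    omega
  let τ : (Fin d → ℝ) → (Rc → Fin 3) := fun x c => cd (x c)
  let ρ : (Fin d → ℝ) → (Fin m → Fin 3 × Fin 3) :=
    fun x k => (cd (x (e (Sum.inl k))), cd (x (e (Sum.inr k))))
  set N0 : ℕ := ∑ F : Finset (Fin m), 7^(m - F.card) * (F.card).choose (F.card/2) with hN0
  have hfib : ∀ z : Rc → Fin 3, (S.filter (fun x => τ x = z)).card ≤ N0 := by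
    intro z
    set Sz := S.filter (fun x => τ x = z) with hSz
    have hrest : ∀ x ∈ Sz, ∀ x' ∈ Sz, ∀ c, c ∉ Finset.univ.map e → x c = x' c := by
      intro x hx x' hx' c hc
      rw [hSz, Finset.mem_filter] at hx hx'
      have hcR : c ∈ Rc := by rw [hRc, Finset.mem_compl]; exact hc
      have h := congrFun (hx.2.trans hx'.2.symm) ⟨c, hcR⟩
      exact cd_inj (hS x hx.1 c) (hS x' hx'.1 c) h
    have hinj : Set.InjOn ρ (Sz : Set (Fin d → ℝ)) := by
      intro x hx x' hx' h
      have hx := Finset.mem_coe.1 hx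
      have hx' := Finset.mem_coe.1 hx'
      have hr := hrest x hx x' hx'
      rw [hSz, Finset.mem_filter] at hx hx'
      funext c
      by_cases hc : c ∈ Finset.univ.map e
      · rw [Finset.mem_map] at hc
        obtain ⟨s, _, rfl⟩ := hc
        rcases s with k | k
        · have := congrArg Prod.fst (congrFun h k)
          exact cd_inj (hS x hx.1 _) (hS x' hx'.1 _) this
        · have := congrArg Prod.snd (congrFun h k)
          exact cd_inj (hS x hx.1 _) (hS x' hx'.1 _) this
      · exact hr c hc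
    have hT : ∀ y ∈ Sz.image ρ, ∀ y' ∈ Sz.image ρ,
        (∀ k, y k = y' k ∨ (y k = ((1, 1) : Fin 3 × Fin 3) ∧ y' k = ((0, 2) : Fin 3 × Fin 3))) →
        y = y' := by
      intro y hy y' hy' hk
      rw [Finset.mem_image] at hy hy'
      obtain ⟨x, hx, rfl⟩ := hy
      obtain ⟨x', hx', rfl⟩ := hy'
      have hr := hrest x hx x' hx'
      rw [hSz, Finset.mem_filter] at hx hx'
      have : x = x' := by
        apply hline x hx.1 x' hx'.1 _ hr
        intro k
        rcases hk k with h | ⟨h, h'⟩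
        · left
          exact ⟨cd_inj (hS x hx.1 _) (hS x' hx'.1 _) (congrArg Prod.fst h),
            cd_inj (hS x hx.1 _) (hS x' hx'.1 _) (congrArg Prod.snd h)⟩
        · right
          exact ⟨cd_one (hS x hx.1 _) (congrArg Prod.fst h),
            cd_one (hS x hx.1 _) (congrArg Prod.snd h),
            cd_zero (hS x' hx'.1 _) (congrArg Prod.fst h'),
            cd_two (hS x' hx'.1 _) (congrArg Prod.snd h')⟩
      rw [this]
    have := card_le_sum ((1, 1) : Fin 3 × Fin 3) ((0, 2) : Fin 3 × Fin 3) (by decide)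
      (Sz.image ρ) hT
    rw [Finset.card_image_of_injOn hinj] at this
    simpa [hN0] using this
  have hcard : S.card ≤ 3^(d - 2*m) * N0 := by
    calc S.card = ∑ z : Rc → Fin 3, (S.filter (fun x => τ x = z)).card :=
          Finset.card_eq_sum_card_fiberwise (fun _ _ => Finset.mem_univ _)
      _ ≤ ∑ z : Rc → Fin 3, N0 := Finset.sum_le_sum (fun z _ => hfib z)
      _ = 3^(d - 2*m) * N0 := by
          rw [Finset.sum_const, Finset.card_univ, Fintype.card_fun, Fintype.card_fin,
            Fintype.card_coe, hRcard, smul_eq_mul]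
  have hN : ((N0 : ℕ) : ℝ)^2 * (2 * (m+1)) ≤ 9^(2*m+1) := by
    have := sum_bound m 7 (by norm_num)
    rw [hN0]
    push_cast
    calc _ ≤ ((2:ℝ)+7)^(2*m+1) := this
      _ = _ := by norm_num
  have hcardR : (S.card : ℝ) ≤ 3^(d - 2*m) * (N0 : ℝ) := by exact_mod_cast hcard
  have hfin : (S.card : ℝ)^2 ≤ 9 / (2 * ((m : ℝ) + 1)) * (3^d)^2 := by
    have hpos : (0:ℝ) < 2 * ((m : ℝ) + 1) := by positivity
    rw [div_mul_eq_mul_div, le_div_iff₀ hpos]
    calc (S.card : ℝ)^2 * (2 * ((m:ℝ)+1)) ≤ (3^(d - 2*m) * (N0 : ℝ))^2 * (2 * ((m:ℝ)+1)) := by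
          apply mul_le_mul_of_nonneg_right _ hpos.le
          exact pow_le_pow_left₀ (by positivity) hcardR 2
      _ = (3^(d-2*m))^2 * ((N0 : ℝ)^2 * (2 * ((m:ℝ)+1))) := by ring
      _ ≤ (3^(d-2*m))^2 * 9^(2*m+1) := mul_le_mul_of_nonneg_left hN (by positivity)
      _ = 9 * (3^d)^2 := by
          have h9 : (9:ℝ) = 3^2 := by norm_num
          rw [h9, ← pow_mul, ← pow_mul, ← pow_mul, ← pow_add, ← pow_add]
          congr 1
          omega
  calc (S.card : ℝ) = Real.sqrt ((S.card : ℝ)^2) := (Real.sqrt_sq (by positivity)).symm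
    _ ≤ Real.sqrt (9 / (2 * ((m : ℝ) + 1)) * (3^d)^2) := Real.sqrt_le_sqrt hfin
    _ = Real.sqrt (9 / (2 * ((m : ℝ) + 1))) * 3 ^ d := by
        rw [Real.sqrt_mul (by positivity), Real.sqrt_sq (by positivity)]

end Pool.Agent.Results.MP_20facf_co.SymmetricUpper
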